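import Pool.Agent.H74.OLP.Targets2

/-!
# Row MAIN: the theorem
-/

set_option autoImplicit false
set_option linter.unusedSectionVars false
open scoped Classical
open Finset Pool.Agent.H74.OLP

namespace Pool.Agent.H59.OLP

theorem pow_ineq (k : ℕ) : 4 ^ k * (12 * k + 52) ≤ 60 * 5 ^ k := by
  have h : 4 ^ k * (12 * k + 52) ≤ 52 * 5 ^ k := by
    induction k with
    | zero => norm_num
    | succ k ih =>
      have h4 : 1 ≤ 4 ^ k := Nat.one_le_pow _ _ (by norm_num)
      calc 4 ^ (k + 1) * (12 * (k + 1) + 52) = 4 ^ k * (48 * k + 256) := by ring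
        _ ≤ 4 ^ k * (60 * k + 260) := Nat.mul_le_mul_left _ (by omega)
        _ = 5 * (4 ^ k * (12 * k + 52)) := by ring
        _ ≤ 5 * (52 * 5 ^ k) := Nat.mul_le_mul_left _ ih
        _ = 52 * 5 ^ (k + 1) := by ring
  have h5 : 1 ≤ 5 ^ k := Nat.one_le_pow _ _ (by norm_num)
  omega

theorem crosses_iff {V : Type} (W : Set V) {e : Sym2 V} {u v : V} (he : e = s(u, v)) :
    Crosses W e ↔ ((u ∈ W ∧ v ∉ W) ∨ (v ∈ W ∧ u ∉ W)) := by
  unfold Crosses
  subst he
  constructor
  · rintro ⟨x, y, h, hx, hy⟩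
    rcases Sym2.eq_iff.1 h with ⟨rfl, rfl⟩ | ⟨rfl, rfl⟩
    · exact Or.inl ⟨hx, hy⟩
    · exact Or.inr ⟨hx, hy⟩
  · rintro (⟨h1, h2⟩ | ⟨h1, h2⟩)
    · exact ⟨u, v, rfl, h1, h2⟩
    · exact ⟨v, u, Sym2.eq_swap, h1, h2⟩

theorem pf_MAIN (h1 : T_MAP) (h2 : T_MNM) (h3 : T_LFI) (h4 : Pool.Agent.H69.OC.T_FIN) :
    T_MAIN := by
  intro V F _ _ G c k hcub hfive hcyc hdc hEul hrep
  by_cases hF : Nonempty F
  · obtain ⟨M, hOK, hst, hon⟩ := h1 V F G c hcub hcyc hdc
    have hcut : ∀ (W : Finset V) (e : G.edgeSet), e ∈ M.cut W ↔ Crosses (W : Set V) e.1 := by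
      intro W e
      rw [crosses_iff (W : Set V) (hst e).symm]
      unfold CMap.cut
      simp only [mem_filter, mem_univ, true_and, mem_coe]
    have hPar : M.Par := fun e e' h => Subtype.ext (by rw [← hst e, ← hst e', h])
    have hFive : M.Five := by
      intro W hW hW'
      have h5 := hfive (W : Set V) (by rw [Set.ncard_coe_finset]; exact hW)
        (by rw [← Finset.coe_compl, Set.ncard_coe_finset]; exact hW')
      have h6 : {e ∈ G.edgeSet | Crosses (W : Set V) e} =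
          Subtype.val '' ((M.cut W : Finset G.edgeSet) : Set G.edgeSet) := by
        ext e
        constructor
        · rintro ⟨he, hc⟩
          exact ⟨⟨e, he⟩, mem_coe.2 ((hcut W ⟨e, he⟩).2 hc), rfl⟩
        · rintro ⟨e', he', rfl⟩
          exact ⟨e'.2, (hcut W e').1 (mem_coe.1 he')⟩
      rw [h6, Set.ncard_image_of_injective _ Subtype.val_injective, Set.ncard_coe_finset] at h5
      exact h5
    have hRep : M.Rep (60 * 5 ^ k) := by
      intro m hm hmw g e hg he hgm hef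
      obtain ⟨W, hW⟩ := hrep m hm hmw g (fun i => (e i).1) hg
        (fun i hi j hj h => he i hi j hj (Subtype.ext h)) hgm
        (fun i hi => ⟨(hon _ _).1 (hef i hi).1, (hon _ _).1 (hef i hi).2⟩)
      refine ⟨univ.filter fun v => v ∈ W, fun e' => ?_⟩
      rw [hcut]
      have h5 : (((univ.filter fun v => v ∈ W) : Finset V) : Set V) = W := by
        ext v; simp
      rw [h5, hW e'.1 e'.2]
      constructor
      · rintro ⟨i, hi, h⟩; exact ⟨i, hi, Subtype.ext h⟩
      · rintro ⟨i, hi, h⟩; exact ⟨i, hi, congrArg Subtype.val h⟩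
    have hLab := h2 V G.edgeSet F M hOK hPar hFive hF k (60 * 5 ^ k) hRep (pow_ineq k) hEul
    obtain ⟨lam, hlam⟩ := h3 V F G M hOK hst hLab
    obtain ⟨C, hC1, hC2⟩ := h4 V G ⟨lam, hlam⟩
    refine ⟨C, hC1, fun u v huv => ?_⟩
    convert hC2 u v huv
  · have hno : ∀ u v, ¬ G.Adj u v := by
      intro u v huv
      have h5 := hdc s(u, v) (G.mem_edgeSet.2 huv)
      have h6 : IsEmpty {f // s(u, v) ∈ (c f).2.edges} := ⟨fun f => hF ⟨f.1⟩⟩
      rw [Nat.card_of_isEmpty] at h5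
      omega
    exact ⟨[], by simp, fun u v huv => absurd huv (hno u v)⟩

end Pool.Agent.H59.OLP
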