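import Pool.Agent.H74.OLP.Targets2

/-!
# Row MAP: the cubic map of a cycle double cover
-/

set_option autoImplicit false
set_option linter.unusedSectionVars false
open scoped Classical
open Finset Pool.Agent.H74.OLP

namespace Pool.Agent.H59.OLP

theorem pf_MAP (h1 : T_MCY) (h2 : T_MTR) : T_MAP := by
  intro V F _ _ G c hcub hcyc hdc
  choose d vt hd hvt hadj hedge hsym using fun f => h1 V G (c f).1 (c f).2 (hcyc f)
  have hends : ∀ e : G.edgeSet, ∃ u v : V, s(u, v) = e.1 := by
    rintro ⟨e, he⟩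
    induction e using Sym2.ind with
    | _ u v => exact ⟨u, v, rfl⟩
  choose s t hst using hends
  have hfaces : ∀ e : G.edgeSet, ∃ x y : F, x ≠ y ∧
      ∀ f, e.1 ∈ (c f).2.edges ↔ (f = x ∨ f = y) := by
    intro e
    obtain ⟨x, y, hxy, huniv⟩ := Nat.card_eq_two_iff.1 (hdc e.1 e.2)
    refine ⟨x.1, y.1, fun h => hxy (Subtype.ext h), fun f => ⟨fun hf => ?_, ?_⟩⟩
    · have h3 : (⟨f, hf⟩ : {f // e.1 ∈ (c f).2.edges}) ∈ ({x, y} : Set _) := by
        rw [huniv]; trivial
      rcases h3 with h3 | h3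
      · exact Or.inl (congrArg Subtype.val h3)
      · exact Or.inr (congrArg Subtype.val h3)
    · rintro (rfl | rfl)
      · exact x.2
      · exact y.2
  choose l r hlr hmem using hfaces
  let ed : F → ℤ → G.edgeSet := fun f i => ⟨s(vt f i, vt f (i + 1)), G.mem_edgeSet.2 (hadj f i)⟩
  let M : CMap V G.edgeSet F := ⟨s, t, l, r, d, vt, ed⟩
  have hOnF : ∀ e f, M.OnF e f ↔ e.1 ∈ (c f).2.edges := by
    intro e f
    rw [hmem e f]
    exact ⟨fun h => h.elim (fun h => Or.inl h.symm) (fun h => Or.inr h.symm),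
      fun h => h.elim (fun h => Or.inl h.symm) (fun h => Or.inr h.symm)⟩
  refine ⟨M, ?_, hst, hOnF⟩
  refine ⟨?_, hlr, hd, hvt, ?_, ?_, ?_, ?_⟩
  · intro e h
    have h3 : s(M.s e, M.t e) ∈ G.edgeSet := by
      have := e.2
      rwa [← hst e] at this
    exact (G.mem_edgeSet.1 h3).ne h
  · intro f i j
    rw [← hsym f i j]
    exact Subtype.ext_iff
  · intro f i
    have h3 : s(s (ed f i), t (ed f i)) = s(vt f i, vt f (i + 1)) := hst (ed f i)
    rcases Sym2.eq_iff.1 h3 with h | h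
    · exact Or.inl h
    · exact Or.inr ⟨h.2, h.1⟩
  · intro e f
    rw [hOnF, hedge f]
    constructor
    · rintro ⟨i, hi⟩; exact ⟨i, Subtype.ext hi.symm⟩
    · rintro ⟨i, hi⟩; exact ⟨i, (congrArg Subtype.val hi).symm⟩
  · intro v
    obtain ⟨a, b, d', x, y, z, hab, hbd, had, hxy, hyz, hxz, hv, ha, hb, hd'⟩ :=
      h2 V F G c hcub hcyc hdc v
    have ava : G.Adj v a := (hv a).2 (Or.inl rfl)
    have avb : G.Adj v b := (hv b).2 (Or.inr (Or.inl rfl))
    have avd : G.Adj v d' := (hv d').2 (Or.inr (Or.inr rfl))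
    have hne : ∀ p q : V, ∀ (hp : G.Adj v p) (hq : G.Adj v q), p ≠ q →
        (⟨s(v, p), G.mem_edgeSet.2 hp⟩ : G.edgeSet) ≠ ⟨s(v, q), G.mem_edgeSet.2 hq⟩ := by
      intro p q hp hq hpq h
      have h3 : s(v, p) = s(v, q) := congrArg Subtype.val h
      exact hpq (Sym2.congr_right.1 h3)
    refine ⟨⟨s(v, a), G.mem_edgeSet.2 ava⟩, ⟨s(v, b), G.mem_edgeSet.2 avb⟩,
      ⟨s(v, d'), G.mem_edgeSet.2 avd⟩, x, y, z, hne a b ava avb hab, hne b d' avb avd hbd,
      hne a d' ava avd had, hxy, hyz, hxz, ?_, ?_, ?_, ?_⟩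
    · intro e
      have hOnV : M.OnV e v ↔ ∃ u, e.1 = s(v, u) := by
        constructor
        · rintro (h | h)
          · exact ⟨t e, by rw [← hst e, ← h]⟩
          · exact ⟨s e, by rw [← hst e, ← h]; exact Sym2.eq_swap⟩
        · rintro ⟨u, hu⟩
          rw [← hst e] at hu
          rcases Sym2.eq_iff.1 hu with h | h
          · exact Or.inl h.1
          · exact Or.inr h.2
      rw [hOnV]
      constructor
      · rintro ⟨u, hu⟩
        have h3 : G.Adj v u := by
          have := e.2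
          rw [hu] at this
          exact G.mem_edgeSet.1 this
        rcases (hv u).1 h3 with rfl | rfl | rfl
        · exact Or.inl (Subtype.ext hu)
        · exact Or.inr (Or.inl (Subtype.ext hu))
        · exact Or.inr (Or.inr (Subtype.ext hu))
      · rintro (rfl | rfl | rfl)
        · exact ⟨a, rfl⟩
        · exact ⟨b, rfl⟩
        · exact ⟨d', rfl⟩
    · intro f; rw [hOnF]; exact ha f
    · intro f; rw [hOnF]; exact hb f
    · intro f; rw [hOnF]; exact hd' f

end Pool.Agent.H59.OLP
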