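import Pool.Agent.H74.OLP.Targets2

/-!
# Row SLF: self intersection
-/

set_option autoImplicit false
set_option linter.unusedSectionVars false
open scoped Classical
open Finset Pool.Agent.H74.OLP

namespace Pool.Agent.H59.OLP

section
variable {V E F : Type} (M : CMap V E F)

/-- the value of the corner function at the end where the face leaves the edge -/
noncomputable def Tf (θ : V → F → R) (x : E → R) (f : F) (e : E) : R :=
  θ (M.s e) f + M.out f e (M.s e) * x e

variable {M}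

theorem cor_step (hM : M.OK) {θ : V → F → R} {x D : E → R} (hC : M.Cor θ x D) (f : F) (i : ℤ) :
    θ (M.vt f (i + 1)) f = θ (M.vt f i) f + x (M.ed f i) := by
  obtain ⟨c1, c2, -, -⟩ := hC (M.ed f i)
  have hon : M.OnF (M.ed f i) f := (hM.on _ _).2 ⟨i, rfl⟩
  have hsum : θ (M.s (M.ed f i)) f + θ (M.t (M.ed f i)) f = x (M.ed f i) := by
    rcases hon with h | h
    · rw [← c1, h]
    · rw [← c2, h]
  rcases hM.jn f i with ⟨h1, h2⟩ | ⟨h1, h2⟩
  · rw [h1, h2] at hsum
    rw [← hsum]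
    linear_combination (-1 : R) * CharTwo.add_self_eq_zero (θ (M.vt f i) f)
  · rw [h1, h2] at hsum
    rw [← hsum]
    linear_combination (-1 : R) * CharTwo.add_self_eq_zero (θ (M.vt f i) f)

theorem vt_ne_succ (hM : M.OK) (f : F) (i : ℤ) : M.vt f i ≠ M.vt f (i + 1) := by
  intro h
  have h1 := (hM.vt_eq f i (i + 1)).1 h
  have h3 := hM.d3 f
  have h2 : i - (i + 1) = -1 := by ring
  rw [h2, Int.dvd_neg] at h1
  have h4 := Int.le_of_dvd one_pos h1
  omega

theorem out_eq (hM : M.OK) (f : F) (i : ℤ) (v : V) :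
    M.out f (M.ed f i) v = if M.vt f i = v then 1 else 0 := by
  unfold CMap.out
  congr 1
  apply propext
  constructor
  · rintro ⟨j, hj, hv⟩
    rw [← hv]
    exact (hM.vt_eq f i j).2 ((hM.ed_eq f i j).1 hj.symm)
  · intro h
    exact ⟨i, rfl, h⟩

theorem tf_eq (hM : M.OK) {θ : V → F → R} {x D : E → R} (hC : M.Cor θ x D) (f : F) (i : ℤ) :
    Tf M θ x f (M.ed f i) = θ (M.vt f (i + 1)) f := by
  unfold Tf
  rw [out_eq hM]
  rcases hM.jn f i with ⟨h1, h2⟩ | ⟨h1, h2⟩
  · rw [if_pos h1.symm, one_mul, h1, cor_step hM hC]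
  · rw [if_neg (fun h => vt_ne_succ hM f i (h.trans h2)), zero_mul, add_zero, h2]

/-- the two edges of a face -/
theorem tf_pair (hM : M.OK) {X : Set F} {θ : V → F → R} {D : E → R} (hC : M.Cor θ (M.ch X) D)
    {f : F} {e e' : E} (hee : e ≠ e')
    (h : ∀ e'', (M.OnF e'' f ∧ M.l e'' ∈ X ∧ M.r e'' ∈ X) ↔ (e'' = e ∨ e'' = e')) :
    Tf M θ (M.ch X) f e + Tf M θ (M.ch X) f e' = 1 := by
  have he := (h e).2 (Or.inl rfl)
  have he' := (h e').2 (Or.inr rfl)
  obtain ⟨a, ha⟩ := (hM.on e f).1 he.1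
  obtain ⟨b₀, hb₀⟩ := (hM.on e' f).1 he'.1
  have hd := hM.d3 f
  have hdpos : (0 : ℤ) < M.d f := by omega
  -- the residue
  obtain ⟨b, hb, hab, hbd⟩ : ∃ b, M.ed f b = e' ∧ a < b ∧ b < a + M.d f := by
    refine ⟨a + (b₀ - a) % M.d f, ?_, ?_, ?_⟩
    · rw [← hb₀, hM.ed_eq]
      have h1 : a + (b₀ - a) % (M.d f : ℤ) - b₀ = -(M.d f * ((b₀ - a) / M.d f)) := by
        have := Int.emod_add_mul_ediv (b₀ - a) (M.d f)
        linarith
      rw [h1]
      exact Int.dvd_neg.2 ⟨_, rfl⟩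
    · have h1 := Int.emod_nonneg (b₀ - a) hdpos.ne'
      rcases h1.lt_or_eq with h2 | h2
      · linarith
      · exfalso
        apply hee
        rw [← ha, ← hb₀, hM.ed_eq]
        have h3 : (M.d f : ℤ) ∣ b₀ - a := Int.dvd_of_emod_eq_zero h2.symm
        have h4 : a - b₀ = -(b₀ - a) := by ring
        rw [h4]
        exact Int.dvd_neg.2 h3
    · have h1 := Int.emod_lt_of_pos (b₀ - a) hdpos
      linarith
  have hzero : ∀ i : ℤ, a < i → i < b → M.ch X (M.ed f i) = 0 := by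
    intro i hai hib
    unfold CMap.ch
    rw [if_neg]
    intro hX
    rcases (h (M.ed f i)).1 ⟨(hM.on _ _).2 ⟨i, rfl⟩, hX⟩ with h1 | h1
    · rw [← ha, hM.ed_eq] at h1
      have := Int.le_of_dvd (by linarith) h1
      linarith
    · rw [← hb, hM.ed_eq] at h1
      have h2 : i - b = -(b - i) := by ring
      rw [h2, Int.dvd_neg] at h1
      have := Int.le_of_dvd (by linarith) h1
      linarith
  have hconst : ∀ n : ℕ, a + 1 + n ≤ b → θ (M.vt f (a + 1 + n)) f = θ (M.vt f (a + 1)) f := by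
    intro n
    induction n with
    | zero => intro _; simp
    | succ n ih =>
      intro hn
      push_cast at hn ⊢
      have h1 := cor_step hM hC f (a + 1 + n)
      rw [hzero (a + 1 + n) (by linarith) (by linarith), add_zero, ih (by linarith)] at h1
      rw [← h1]
      congr 2
      ring
  have hτb : θ (M.vt f b) f = θ (M.vt f (a + 1)) f := by
    have h1 := hconst (b - (a + 1)).toNat (by
      rw [Int.toNat_of_nonneg (by linarith)]; linarith)
    rw [Int.toNat_of_nonneg (by linarith)] at h1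
    have h2 : a + 1 + (b - (a + 1)) = b := by ring
    rwa [h2] at h1
  have hchb : M.ch X (M.ed f b) = 1 := by
    unfold CMap.ch
    rw [hb, if_pos he'.2]
  have e1 : Tf M θ (M.ch X) f e = θ (M.vt f (a + 1)) f := by rw [← ha, tf_eq hM hC]
  have e2 : Tf M θ (M.ch X) f e' = θ (M.vt f (a + 1)) f + 1 := by
    rw [← hb, tf_eq hM hC, cor_step hM hC, hτb, hchb]
  rw [e1, e2]
  linear_combination CharTwo.add_self_eq_zero (θ (M.vt f (a + 1)) f)

end

theorem pf_SLF (h1 : T_DIR) : T_SLF := by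
  intro V E F _ _ _ M hM X θ Φ hX hC
  obtain ⟨P, hP⟩ : ∃ P : Finset E, P = univ.filter fun e => M.l e ∈ X ∧ M.r e ∈ X := ⟨_, rfl⟩
  obtain ⟨Q, hQ⟩ : ∃ Q : Finset F, Q = univ.filter fun f => f ∈ X := ⟨_, rfl⟩
  have memP : ∀ e, e ∈ P ↔ (M.l e ∈ X ∧ M.r e ∈ X) := fun e => by rw [hP]; simp
  have memQ : ∀ f, f ∈ Q ↔ f ∈ X := fun f => by rw [hQ]; simp
  have hfe : ∀ e ∈ P, Q.filter (fun f => M.OnF e f) = {M.l e, M.r e} := by
    intro e he
    ext f
    rw [mem_filter, memQ, mem_insert, mem_singleton]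
    constructor
    · rintro ⟨-, h | h⟩
      · exact Or.inl h.symm
      · exact Or.inr h.symm
    · rintro (rfl | rfl)
      · exact ⟨((memP e).1 he).1, Or.inl rfl⟩
      · exact ⟨((memP e).1 he).2, Or.inr rfl⟩
  have hef : ∀ f ∈ Q, ∃ e e', e ≠ e' ∧ P.filter (fun e => M.OnF e f) = {e, e'} ∧
      Tf M θ (M.ch X) f e + Tf M θ (M.ch X) f e' = 1 := by
    intro f hf
    obtain ⟨e, e', hee, h⟩ := hX f ((memQ f).1 hf)
    refine ⟨e, e', hee, ?_, tf_pair hM hC hee h⟩
    ext e''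
    rw [mem_filter, memP, mem_insert, mem_singleton, ← h e'']
    tauto
  -- the numbers
  have hcard : P.card = Q.card := by
    have h2 : ∑ e ∈ P, ∑ f ∈ Q.filter (fun f => M.OnF e f), 1 =
        ∑ f ∈ Q, ∑ e ∈ P.filter (fun e => M.OnF e f), 1 := by
      simp only [sum_filter]
      exact sum_comm
    have h3 : ∑ e ∈ P, ∑ f ∈ Q.filter (fun f => M.OnF e f), 1 = P.card * 2 := by
      rw [← smul_eq_mul, ← sum_const]
      refine sum_congr rfl fun e he => ?_
      rw [hfe e he, sum_pair (hM.lr e)]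
    have h4 : ∑ f ∈ Q, ∑ e ∈ P.filter (fun e => M.OnF e f), 1 = Q.card * 2 := by
      rw [← smul_eq_mul, ← sum_const]
      refine sum_congr rfl fun f hf => ?_
      obtain ⟨e, e', hee, h, -⟩ := hef f hf
      rw [h, sum_pair hee]
    omega
  have hT : ∑ e ∈ P, (Tf M θ (M.ch X) (M.l e) e + Tf M θ (M.ch X) (M.r e) e) = (Q.card : R) := by
    have h2 : ∑ e ∈ P, ∑ f ∈ Q.filter (fun f => M.OnF e f), Tf M θ (M.ch X) f e =
        ∑ f ∈ Q, ∑ e ∈ P.filter (fun e => M.OnF e f), Tf M θ (M.ch X) f e := by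
      simp only [sum_filter]
      exact sum_comm
    have h3 : ∑ e ∈ P, ∑ f ∈ Q.filter (fun f => M.OnF e f), Tf M θ (M.ch X) f e =
        ∑ e ∈ P, (Tf M θ (M.ch X) (M.l e) e + Tf M θ (M.ch X) (M.r e) e) := by
      refine sum_congr rfl fun e he => ?_
      rw [hfe e he, sum_pair (hM.lr e)]
    have h4 : ∑ f ∈ Q, ∑ e ∈ P.filter (fun e => M.OnF e f), Tf M θ (M.ch X) f e =
        (Q.card : R) := by
      rw [← nsmul_one, ← sum_const]
      refine sum_congr rfl fun f hf => ?_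
      obtain ⟨e, e', hee, h, hs⟩ := hef f hf
      rw [h, sum_pair hee, hs]
    rw [← h3, h2, h4]
  have hdot : ∀ D : E → R, CMap.dot D (M.ch X) = ∑ e ∈ P, D e := by
    intro D
    unfold CMap.dot CMap.ch
    rw [hP, sum_filter]
    refine sum_congr rfl fun e _ => ?_
    split_ifs
    · rw [mul_one]
    · rw [mul_zero]
  have hterm : ∀ e ∈ P, M.D1 e =
      1 + (Tf M θ (M.ch X) (M.l e) e + Tf M θ (M.ch X) (M.r e) e) + Φ e := by
    intro e he
    obtain ⟨-, -, c3, -⟩ := hC e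
    have hch : M.ch X e = 1 := by
      unfold CMap.ch
      rw [if_pos ((memP e).1 he)]
    unfold Tf CMap.D1
    rw [hch, ← c3]
    have := CharTwo.add_self_eq_zero (θ (M.s e) (M.l e))
    have h5 := CharTwo.add_self_eq_zero (θ (M.s e) (M.r e))
    linear_combination (-1 : R) * this - h5
  rw [hdot, hdot, sum_congr rfl hterm, sum_add_distrib, sum_add_distrib, hT, sum_const,
    nsmul_one, hcard]
  linear_combination (-1 : R) * CharTwo.add_self_eq_zero (Q.card : R)

end Pool.Agent.H59.OLP
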